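import Mathlib
import Pool.Agent.U980.MF.Main

/-!
# Simple factors of the Mumford-Tate group which are missing in the Galois group give exceptional
Tate classes of codimension two on the fourth power

Let `A` be an abelian variety of dimension `g` over a finitely generated subfield of `ℂ`, and `ℓ` a
prime. We write `A(ℂ) = ℝ ^ n / ℤ ^ n`, `n = 2 g`, with the complex structure `J` and the Riemann form
`E` of a polarization (`RiemannData`). Let `V = ℚ_ℓ ^ n` be the Tate module, with the action `ρ` of
the (compact) Galois group `Γ` and with the cyclotomic character `χ`; the group respects the form `E`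
up to the multiplier `χ` (`IsTateModule`, the Weil pairing).

The multilinear forms of degree `2 m` on `V` are the elements of `H ^ 1 (A, ℚ_ℓ) ^ (⊗ 2 m)`, i.e. of
the Künneth component of type `(1, …, 1)` of `H ^ (2 m) (A ^ (2 m), ℚ_ℓ)`; all the cohomology groups
of all the powers of `A` are direct summands of such spaces.

* A form `φ` is a *Tate class* (`IsTate`) if `φ (g v) = χ (g) ^ m φ (v)` for all `g` in a subgroup of
  finite index, i.e. this subgroup fixes `φ` in the `m`-th Tate twist.
* A form with rational coefficients is a *Hodge class* (`IsHodge`) if it is of type `(m, m)`, i.e. if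
  the derivation by `J` kills it. `hodgeSpan` is the space of their combinations over `ℚ_ℓ`.
* The Lie algebra of the Hodge group over `ℚ_ℓ` (i.e. of the Mumford-Tate group, up to scalars) is the
  space `hodgeLie` of the endomorphisms of `V` which kill all Hodge classes.

The theorems of Faltings (semisimplicity; the endomorphisms commuting with a subgroup of finite
index are combinations of endomorphisms of `A`) and of Deligne (Hodge classes are Tate classes) are
hypotheses (`Faltings`, `Deligne`).

**Theorem.** Let `𝔫_1, …, 𝔫_r` be different simple factors of the Lie algebra of the Mumford-Tate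
group over `ℚ_ℓ` which are not contained in the Lie algebra of the Galois group (`InGalois`: all
elements kill all Tate classes). Then

`∑_j d_j + dim H ≤ dim T`, if the centroid of `𝔫_j` has dimension at least `d_j` (`CentroidDim`),

where `T` is the space of the Tate classes of codimension two of Künneth type `(1, 1, 1, 1)` on
`A ^ 4`, and `H ⊆ T` is the space of the combinations of Hodge classes among them. The dimension of the
centroid of `𝔫_j` is the number of the simple factors of `𝔫_j` over an algebraic closure of `ℚ_ℓ`; one
may always take `d_j = 1`, so `r + dim H ≤ dim T`.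

So the number of the simple factors (over an algebraic closure) which are missing in the Galois group
is bounded by the number of linearly independent exceptional Tate classes of codimension two on
`A ^ 4`. In particular (second part) if `T = H` then the Galois group contains all simple factors of
the Mumford-Tate group. There is no condition on the dimension of `A`, on its endomorphisms or on its
reduction. Since algebraic classes are Hodge classes, a failure of the Mumford-Tate conjecture in `r`
simple factors gives `r` counterexamples to the Tate conjecture in codimension two on `A ^ 4`,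
independent modulo algebraic classes.

## Proof

Let `L` be the Lie algebra of all endomorphisms of `V` which kill all Tate tensors, and `P` the
orthogonal projection of `End V` to `L` for the trace form, which is nondegenerate on `L` by the
semisimplicity. On the Hodge side the trace form is nondegenerate on `𝔤 = hodgeLie`: the Cartan
involution `X ↦ J X J` preserves `𝔤 ⊗ ℝ` (it is a combination of `X` and of `[J, [J, X]]`), and
`tr (X (J X J))` is a sum of squares because `J X J` is the adjoint of `X` for the positive form
`E (x, J y)`. Descent from `ℝ` to `ℚ` and extension to `ℚ_ℓ` is done by rational functionals. Hence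
there is an orthogonal projection `π_j` to `𝔫_j`; it commutes with `𝔤`, and so does `f π_j` for `f` in
the centroid of `𝔫_j`. The four-linear form attached to `f π_j` (by `ω (T (ω (y, ·) x) z, w)`) is
killed by `𝔤`, hence it is a combination of Hodge classes, hence a Tate class. So the form of `f π_j P`
is a Tate class. If `∑_j f_j π_j P` gives a combination of Hodge classes and `f_j ≠ 0`, then `π_j P`
commutes with `𝔤`, and so does its transpose `P π_j`. Therefore `P (𝔫_j)` is an ideal of `𝔤`, and
`P (𝔫_j) = P ([𝔫_j, 𝔫_j]) = [𝔫_j, P (𝔫_j)]` is contained in `𝔫_j`. If it is `𝔫_j`, then `𝔫_j ⊆ L`. If it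
is zero, then `𝔫_j` is orthogonal to `L`, hence commutes with `L`, and then it commutes with `𝔤` by the
theorem of Faltings (the Lie algebra of the Galois group has the same commutant as a subgroup of
finite index), a contradiction.
-/

set_option autoImplicit false

noncomputable section

namespace Pool.Agent.Results.MP_33b3f9_ag.MissingFactors

open Module Pool.Agent.U980.MF

/-- The spaces of endomorphisms of the Tate module. -/
abbrev Spaces (n ℓ : ℕ) [Fact ℓ.Prime] : Type := Submodule ℚ_[ℓ] (End ℚ_[ℓ] (Fin n → ℚ_[ℓ]))

section defs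

variable {n ℓ : ℕ} [Fact ℓ.Prime] (A : RiemannData n) {Γ : Type} [Group Γ]
  (ρ : Representation ℚ_[ℓ] Γ (Fin n → ℚ_[ℓ])) (χ : Γ →* ℚ_[ℓ])

/-- The subspace `𝔫` is contained in the Lie algebra of the Galois group (up to scalars): its elements
kill all Tate classes. -/
def InGalois (𝔫 : Spaces n ℓ) : Prop :=
  ∀ X ∈ 𝔫, ∀ (m : ℕ) (φ : Form ℚ_[ℓ] (Fin n → ℚ_[ℓ]) m), IsTate ρ χ φ → Kills X φ

/-- `𝔫` is a simple factor of the Lie algebra of the Mumford-Tate group over `ℚ_ℓ`. -/
def IsFactor (𝔫 : Spaces n ℓ) : Prop := IsSimpleFactor (hodgeLie A ℚ_[ℓ]) 𝔫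

/-- `𝔫` is a simple factor of the Lie algebra of the Mumford-Tate group over `ℚ_ℓ`, its centroid has
dimension at least `d`, and `𝔫` is not contained in the Lie algebra of the Galois group. -/
def IsMissing (𝔫 : Spaces n ℓ) (d : ℕ) : Prop :=
  IsFactor A 𝔫 ∧ CentroidDim (hodgeLie A ℚ_[ℓ]) 𝔫 d ∧ ¬ InGalois ρ χ 𝔫

/-- The dimension of the space of the Tate classes in `H ^ 1 (A) ^ (⊗ 4) (2)`. -/
def tateDim : ℕ := finrank ℚ_[ℓ] (tateForms ρ χ 2)

/-- The dimension of the space of the combinations of Hodge classes in `H ^ 1 (A) ^ (⊗ 4) (2)`. -/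
def hodgeDim (ℓ : ℕ) [Fact ℓ.Prime] : ℕ := finrank ℚ_[ℓ] (hodgeSpan A ℚ_[ℓ] 2)

end defs

/-- **Missing simple factors give exceptional Tate classes.** -/
theorem result {n : ℕ} (A : RiemannData n) {ℓ : ℕ} [Fact ℓ.Prime] {Γ : Type} [Group Γ]
    [TopologicalSpace Γ] [IsTopologicalGroup Γ] [CompactSpace Γ]
    (ρ : Representation ℚ_[ℓ] Γ (Fin n → ℚ_[ℓ])) (χ : Γ →* ℚ_[ℓ])
    (tate : IsTateModule A ρ χ) (faltings : Faltings A ρ) (deligne : Deligne A ρ χ) :
    (∀ (r : ℕ) (𝔫 : Fin r → Spaces n ℓ) (d : Fin r → ℕ), Function.Injective 𝔫 →
      (∀ j, IsMissing A ρ χ (𝔫 j) (d j)) → ∑ j, d j + hodgeDim A ℓ ≤ tateDim ρ χ) ∧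
    (tateDim ρ χ ≤ hodgeDim A ℓ → ∀ 𝔫 : Spaces n ℓ, IsFactor A 𝔫 → InGalois ρ χ 𝔫) := by
  have h1 : ∀ (r : ℕ) (𝔫 : Fin r → Spaces n ℓ) (d : Fin r → ℕ), Function.Injective 𝔫 →
      (∀ j, IsMissing A ρ χ (𝔫 j) (d j)) → ∑ j, d j + hodgeDim A ℓ ≤ tateDim ρ χ := by
    intro r 𝔫 d hinj hs
    unfold tateDim hodgeDim
    refine le_trans (add_le_add_left (Finset.sum_le_sum fun j _ =>
      centroidDim_le (hs j).2.1) _) (missing tate faltings deligne 𝔫 hinj (fun j => (hs j).1)
      fun j => ?_)
    have h2 := (hs j).2.2
    unfold InGalois at h2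
    push Not at h2
    obtain ⟨X, hX, m, φ, hφ, hK⟩ := h2
    exact ⟨X, hX, m, φ, hφ, hK⟩
  refine ⟨h1, fun hTH 𝔫 hs => ?_⟩
  by_contra hG
  have h2 := h1 1 (fun _ => 𝔫) (fun _ => 1) (fun _ _ _ => Subsingleton.elim _ _)
    (fun _ => ⟨hs, centroidDim_one hs, hG⟩)
  rw [Fin.sum_univ_one] at h2
  omega

end Pool.Agent.Results.MP_33b3f9_ag.MissingFactors
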