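import Mathlib
import Pool.Agent.U124.FT.Main

/-!
# The Mumford-Tate conjecture for abelian varieties whose reduction at one place has no exotic classes
of codimension two

Let `A` be an abelian variety over a finitely generated field of complex numbers, of any dimension and
with arbitrary endomorphisms, which has good reduction `B` at some place; `γ` is the Frobenius element.

**First part.**  Suppose that the eigenvalues of `γ` on the Tate module are distinct, that `√q` and
`-√q` are not among them, and that all multiplicative relations between FOUR of them (which may be
equal) are trivial: if `x y z w = ζ q ^ 2` for a root of unity `ζ`, then `x y = q` or `x z = q` or
`x w = q` (`HasOnlyPairs`).  In other words: the endomorphism algebra of `B` over an algebraic closure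
is commutative, `B` has no supersingular factor, and the Tate classes of codimension two on the powers
of `B` are combinations of intersections of divisors.  Nothing is assumed about relations
between more than four eigenvalues, so that `B` can have exotic Tate classes of codimension three and
more, and the Frobenius torus can be of small rank; there is no condition on the slopes and on
the dimension.  Suppose moreover that `A` has no strongly irreducible planes which are not
symplectic (`PlanesAreSymplectic`; by Faltings, if `A` is simple over the algebraic closure this just
means that `End(A) ⊗ ℚ` is not a CM field of degree `dim A`).  Then the Mumford-Tate conjecture holds for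
`A` and `ℓ` (`MumfordTateHolds`), by means of the theorem that it holds for the centres of
the groups (`CentreTheoremHolds`; Vasiu, Ullmo-Yafaev).  If all strongly irreducible subspaces are
symplectic (for instance if `End(A) = ℤ` or is totally real, over the algebraic closure) it holds without
this theorem and in the strong form: all Tate classes are combinations of products of Hodge classes of
degree two, and the Hodge conjecture and the Tate conjecture hold for all powers of `A`.

**Second part.**  The assumption on the relations is satisfied if the characteristic polynomial of
`γ` is the minimal polynomial of a Weil number `π` in a CM field `E` which contains a CM field `K` (an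
imaginary quadratic field for instance) such that `E` has degree `r ≥ 5` over `K`, or `r = 3` and
`K` is imaginary quadratic, and (`IsGoodOver`)

* no power of `π` is in `K` and `r` is a prime number (if `K` is not quadratic we assume that for each
  complex embedding `κ` of `K` the automorphisms of `ℂ` that fix the embeddings of `E` not over `κ` and
  its complex conjugate are transitive on those over `κ`), or
* no power of `π` is in `K` and for each `κ` the automorphisms of `ℂ` that fix the embeddings of `E`
  not over `κ` and its complex conjugate are doubly transitive on those over `κ` (if `K` is quadratic this
  just means that the automorphisms of `ℂ` are doubly transitive on the embeddings over `κ`, for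
  instance `E = K F` for a totally real field `F` with a doubly transitive Galois group), or
* all relations between the conjugates of `π` are defined over `K`, up to pairs of complex
  conjugates.

In all three cases there can be relations (for instance Weil's relations, of length `r`, if `K` is
quadratic and `A` is of Weil type with respect to `K`).  So for an imaginary quadratic `K` the
Mumford-Tate conjecture holds for all abelian varieties `A` of dimension three or at least five with
such a Frobenius element and `End(A) ⊗ ℚ = ℚ`, or `K`, or any field other than a CM field of degree
`dim A`.  The dimension four has to be excluded: there are Mumford's abelian fourfolds with
`End(A) = ℤ` and a Mumford-Tate group of rank four, whose Frobenius elements have relations between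
four eigenvalues.

The proof.  Let `𝔤` be the Lie algebra of the operators that kill all Tate classes, `U` a strongly
irreducible subspace; it is a sum of eigenlines of `γ`.  If `a` and `b` are different eigenvalues on
`U` then `b / a` occurs only once as a ratio of eigenvalues on `U`, or twice if `U` is symplectic (the
other occurrence is `(q / a) / (q / b)`), and there are no three eigenvalues in geometric progression
with this ratio.  So the component of suitable degree of an element of `𝔤` that moves
the eigenline of `a`, with respect to a slope operator of `γ`, is of square zero and of rank one or
two on `U`.  This gives an element of square zero and of rank one on `U`, and so the special linear or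
the symplectic Lie algebra.  Twists: if `U` is not self-dual and of dimension at least three and `U'` is
a twist of `U`, then the eigenvalues on `U'` are multiples of those on `U`, up to roots of unity,
and the relations between four eigenvalues show that `U' = U`.

Before (starting files), one Frobenius element was known to suffice if there are no relations at all
(`OneFrobeniusTowers`, `AlmostAllFrobeniusTypes`, `AllCMFields`) or, for symplectic `U`, if the ratios of
eigenvalues have few coincidences and if moreover weak Hodge elements generate (`FrobeniusPairsOrRatios`,
by the methods of Pink).
-/

set_option autoImplicit false

namespace Pool.Agent.Results.MP_33b3f9_ag.NoExoticClassesAtOnePlace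

open NumberField Pool.Agent.U124.FT

/-- **The Mumford-Tate conjecture for abelian varieties whose reduction at one place has no exotic
classes of codimension two, and Weil numbers with this property.** -/
theorem result :
    (∀ (ℓ : ℕ) [Fact ℓ.Prime] (A : AbelianVariety ℓ) (γ : A.Γ), HasOnlyPairs A γ →
      PlanesAreSymplectic A →
      (CentreTheoremHolds A → MumfordTateHolds A) ∧
        (IsOfSymplecticType A → MumfordTateHoldsStrongly A)) ∧
    ∀ (E K : Type) [Field E] [NumberField E] [IsCMField E] [Field K] [NumberField K]
      [IsCMField K] (ι : K →+* E) (r q : ℕ) (π : E), 0 < q →
      (∀ φ : E →+* ℂ, ‖φ π‖ ^ 2 = (q : ℝ)) → IsGoodOver ι r q π →
      ∀ (ℓ : ℕ) [Fact ℓ.Prime] (A : AbelianVariety ℓ) (γ : A.Γ), IsFrobeniusFor A γ q π →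
        HasOnlyPairs A γ :=
  ⟨fun _ _ A _ h hpl => mumfordTate_of_onlyPairs A h hpl,
    fun _ _ _ _ _ _ _ _ ι _ _ _ hq hπ h _ _ A γ hγ => hasOnlyPairs_of_good hq hπ ι h A γ hγ⟩

end Pool.Agent.Results.MP_33b3f9_ag.NoExoticClassesAtOnePlace
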