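import Mathlib
import Pool.Agent.U188.MTQ.Main

/-!
# One Tate class of degree four decides the Mumford-Tate conjecture

Let `A` be an abelian variety over a finitely generated subfield of the complex numbers, of any
dimension and with arbitrary endomorphisms. `W = H_1(A, ℚ)`, `T` is the tangent space at the origin and
`per : W → T` the inclusion; `ω₀` is the Riemann form of a polarization. `V = ℚ_ℓ ⊗ W` is the rational
Tate module, with the continuous action `ρ` of the Galois group `Γ`, the cyclotomic character `χ` and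
the Weil pairing `ω`. A Tate class (`IsTateTensor`) is a multilinear form in `2 m` variables on `V` on
which a subgroup of finite index of `Γ` acts through `χ ^ m`, that is, a Tate class in
`(H^1)^{⊗ 2 m} (m)`, for some `m`. A *Hodge combination* is a linear combination with coefficients in
`ℚ_ℓ` of Hodge classes. The known theorems which are used are hypotheses: the theorems of Faltings
(`Semisimple`, `Faltings`), the theorem of Deligne that Hodge classes on abelian varieties are Tate
classes (`Deligne`), and the theorem that the Mumford-Tate conjecture holds for the centres (Vasiu,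
Ullmo-Yafaev; `Centres`).

**Theorem.** There is a class `Θ` in `(H^1)^{⊗ 4} (2)` (so in `H^4(A ^ 4, ℚ_ℓ(2))`), fixed by the whole
Galois group, with the following properties.

1. The Mumford-Tate conjecture holds for `A` if and only if the ONE class `Θ` is a linear combination
   of Hodge classes: if `Θ` is a Hodge combination then all Tate classes in all
   `(H^1)^{⊗ 2 m} (m)`, and so in the cohomology of all powers of `A`, are Hodge combinations.
2. `Θ` determines the Lie algebra of the Galois group up to the centre: each endomorphism `Z` of `V`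
   which is skew for the Weil pairing, commutes with the endomorphisms of `A` and annihilates `Θ` is
   the sum of an element `C` of the centre of `End(A) ⊗ ℚ_ℓ` and of an endomorphism which
   annihilates all Tate classes.

Consequences. If the Mumford-Tate conjecture fails for `A`, in any degree, then it fails for a
Galois-invariant class of degree four. If `Θ` is algebraic, in particular if the Tate conjecture
holds for the cycles of codimension two on `A ^ 4`, then the Mumford-Tate conjecture holds for `A`,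
and so the Tate conjecture for a power of `A` (all degrees) follows from the Hodge conjecture for it.
As the Galois group acts semisimply (Faltings), a reductive algebraic group between the Zariski
closure of the Galois group and the Mumford-Tate group is determined by its invariants: so the group
`MT(A)` is generated by the Galois group (`Q1`) if and only if the one class `Θ` is a Hodge class.

The proof. Let `𝔥` be the Lie algebra of all endomorphisms of `V` which annihilate the Tate classes.
For an element `s` of the Galois group with `ρ(s)` congruent to `1` modulo `ℓ ^ 2` a limit `Y` of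
`(ρ(s) ^ (ℓ ^ k) - 1) / ℓ ^ k`, corrected by a scalar, is in `𝔥`, and what commutes with `Y` commutes
with `ρ(s)`. So the commutant of `𝔥` is the algebra `End(A) ⊗ ℚ_ℓ` by Faltings; and `𝔥` acts
semisimply, as it is normalized by the Galois group. By the positivity of the Rosati involution and
the theorem on centres the trace form of `𝔥` is nondegenerate. `Θ` is its Casimir form
`Θ(u, v, u', v') = ω(E(u, v) u', v')`, where `E(u, v)` is the element of `𝔥` with
`tr(E(u, v) X) = ω(X u, v)` for all `X` in `𝔥`. An endomorphism which annihilates `Θ` normalizes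
`𝔥`, so it differs from an element of `𝔥` by an endomorphism which commutes with `𝔥`.
-/

namespace Pool.Agent.Results.MP_33b3f9_ag.OneQuarticClass

open Module TensorProduct Pool.Agent.W516.MTD
open Pool.Agent.H204R3.GP (IsTateTensor)

/-- **One Tate class of degree four decides the Mumford-Tate conjecture.** -/
theorem result (ℓ : ℕ) [Fact ℓ.Prime]
    -- the complex torus `A(ℂ)` with a polarization
    {W T : Type} [AddCommGroup W] [Module ℚ W] [FiniteDimensional ℚ W] [AddCommGroup T] [Module ℂ T]
    (per : W →+ T) (hper : IsRationalStructure per)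
    (ω₀ : W →ₗ[ℚ] W →ₗ[ℚ] ℚ) (hR : IsRiemannForm per ω₀)
    -- the Tate module
    {Γ : Type} [Group Γ] [TopologicalSpace Γ] [IsTopologicalGroup Γ] [CompactSpace Γ]
    (ρ : Representation ℚ_[ℓ] Γ (ℚ_[ℓ] ⊗[ℚ] W)) (χ : Γ →* ℚ_[ℓ])
    (hρ : ∀ (f : ℚ_[ℓ] ⊗[ℚ] W →ₗ[ℚ_[ℓ]] ℚ_[ℓ]) (v : ℚ_[ℓ] ⊗[ℚ] W), Continuous fun s => f (ρ s v))
    (hχ : Continuous χ)
    (ω : ℚ_[ℓ] ⊗[ℚ] W →ₗ[ℚ_[ℓ]] ℚ_[ℓ] ⊗[ℚ] W →ₗ[ℚ_[ℓ]] ℚ_[ℓ])
    (hωω : ∀ u v : W, ω ((1 : ℚ_[ℓ]) ⊗ₜ[ℚ] u) ((1 : ℚ_[ℓ]) ⊗ₜ[ℚ] v) = ((ω₀ u v : ℚ) : ℚ_[ℓ]))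
    (hωρ : ∀ s u v, ω (ρ s u) (ρ s v) = χ s * ω u v)
    -- the theorems of Faltings, Deligne, and Vasiu, Ullmo-Yafaev
    (hss : Semisimple ρ) (hF : Faltings per ρ) (hD : Deligne per ρ χ) (hC : Centres per ρ χ) :
    ∃ Θ : MultilinearMap ℚ_[ℓ] (fun _ : Fin 2 × Fin 2 => ℚ_[ℓ] ⊗[ℚ] W) ℚ_[ℓ],
      (∀ s v, Θ (fun l => ρ s (v l)) = χ s ^ 2 * Θ v) ∧
      (IsHodgeCombination per Θ ↔
        ∀ (m : ℕ) (φ : MultilinearMap ℚ_[ℓ] (fun _ : Fin m × Fin 2 => ℚ_[ℓ] ⊗[ℚ] W) ℚ_[ℓ]),
          IsTateTensor ρ χ m φ → IsHodgeCombination per φ) ∧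
      ∀ Z : Module.End ℚ_[ℓ] (ℚ_[ℓ] ⊗[ℚ] W), (∀ u v, ω (Z u) v + ω u (Z v) = 0) →
        (∀ P ∈ endos ℚ_[ℓ] per, Z * P = P * Z) → Annihilates Z Θ →
          ∃ C ∈ endos ℚ_[ℓ] per, (∀ P ∈ endos ℚ_[ℓ] per, C * P = P * C) ∧
            ∀ (m : ℕ) (φ : MultilinearMap ℚ_[ℓ] (fun _ : Fin m × Fin 2 => ℚ_[ℓ] ⊗[ℚ] W) ℚ_[ℓ]),
              IsTateTensor ρ χ m φ → Annihilates (Z - C) φ := by
  obtain ⟨Θ, h1, h2, h3⟩ := Pool.Agent.U188.MTQ.quartic per ρ χ ω₀ ω hper hR hωω hωρ hρ hχ hss hF
    hD hC
  refine ⟨Θ, h1, ⟨h3, fun h => h 2 Θ ⟨⊤, inferInstance, fun s _ v => h1 s v⟩⟩, ?_⟩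
  intro Z hZ hZc hZk
  obtain ⟨C, h4, h5, h6⟩ := h2 Z hZ hZc hZk
  exact ⟨C, h4, h5, fun m φ hφ => h6 m φ hφ⟩

end Pool.Agent.Results.MP_33b3f9_ag.OneQuarticClass
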