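import Mathlib
import Pool.Agent.U175.LP.V12

/-!
# The Mumford-Tate conjecture at every prime number from the image of Galois modulo one prime

Let `A` be an abelian variety over `ℚ` (the theorem is about every direct sum of pure motives over
`ℚ`, and about the generic member of a family with a rational point `s` of good reduction). Let `𝔤` be the
Lie algebra of its Mumford-Tate group, and `r` the rank of `𝔤`. Let `p` be ONE prime number, choose a
Galois stable lattice in the `p`-adic realization and let `R g` be the matrices of the elements of the
Galois group of `ℚ`. Consider two conditions on the image of Galois modulo `p`.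

**(A), a torus in the residual Lie algebra.** `p` is odd; the residual Lie algebra `𝔫` is the Lie algebra
of matrices over `ℤ / p` generated by

* the logarithms of the elements `u` of the image of Galois modulo `p` with `(u - 1) ^ ((p - 1) / 2) = 0`
  (for `p > 2 N` these are all the elements of order `p`, and they generate the Lie algebra of Nori);
* the reductions modulo `p` of the matrices `(R g - 1) / p ^ (k + 1)`, if these are integral. By a theorem
  of Bogomolov the image of Galois contains homotheties for abelian varieties, so that the identity matrix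
  is always in `𝔫`.

The condition is that `𝔫` has the toral rank at least `r`: over some extension field of `ℤ / p` the
space generated by `𝔫` contains `r` linearly independent matrices which can be diagonalized
simultaneously.

**(B), one element.** There is an element of the image of Galois modulo `p` with `r` eigenvalues in some
extension field of `ℤ / p` which satisfy no relation `∏ x_j ^ e_j = 1` with `|e_j| ≤ B`, except for
`e = 0`. Here `B` is a number which depends only on the rank `r`, the Betti numbers `n i`, the weights `w i`
and the exponent `c` of the denominators (`c = 0` for abelian varieties); for abelian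
varieties of dimension `g` it depends only on `g` and `r`.

**Theorem.** The following are equivalent:

1. at some place `v` of good reduction there are `r` multiplicatively independent Frobenius
   eigenvalues (the Frobenius torus at `v` has dimension at least `r`);
2. (A) or (B) holds for one `p` and one stable lattice;
3. (B) holds for all `p` outside of a finite set, and for all stable lattices.

If `r` is at least the rank of `𝔤` (and then equal to it) and this is true, then for EVERY prime
number `ℓ` the `ℓ`-adic realization is semisimple over all finite extensions, and the Mumford-Tate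
conjecture at `ℓ` (all Tate tensors, in all tensor spaces, are the tensors killed by `𝔤`, and `𝔤 ⊗ ℚ_ℓ`
is the Lie algebra of the operators killing all Tate tensors) is true if and only if all Tate
endomorphisms are killed by `𝔤`. So the criterion, in terms of one finite group, is not only sufficient:
by Serre's theory of Frobenius tori 1 holds if the Mumford-Tate conjecture is true for one `ℓ`, and then
the criterion is satisfied for almost all `p`.

For abelian varieties Tate endomorphisms are combinations of endomorphisms of `A` by the theorem of
Faltings; so **the Mumford-Tate conjecture for `A` is true at every `ℓ`** if there is one prime `p` with (A) or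
(B): for instance `MT(A)` of rank `r` with centre `𝔾_m`, and `r - 1` independent commuting
semisimple operators without scalars in the Lie algebra over the algebraic closure of `ℤ / p` generated by the
logarithms of the unipotent elements of the image in `GL(A[p])`. An abelian variety over a number
field is a factor of its Weil restriction to `ℚ`.

Nothing is assumed about `p` and `A`: `A` may have bad reduction at `p`, `p` may be small compared with the
dimension and divide the discriminant of `End A`, the group may be ramified at `p`, the lattice is
arbitrary, the residual representation need not be semisimple, and `𝔫` need not be large: only tori are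
counted, and (B) is a condition on one single matrix modulo `p`. The results of Serre and
Larsen-Pink determine the rank by Frobenius elements, or by the image modulo `p` for all `p` larger
than a bound that is not effective; my theorem in MP_de8692_ag.ResidualDimension needs the whole
dimension of the Lie algebra of the motivic group, and has a conclusion only at `ℓ = p`.

Proof for (A). (1) The elements of `𝔫` are reductions of tangent vectors `Y_i` of the image of
Galois (`genLie_le`). (2) Choose `t_i` in `ℤ_p`, algebraically independent over the ring `A₀` generated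
by the coefficients of the `Y_i`, and let `Y = ∑ t_i Y_i`. The eigenvalues of `Y` are integral over
`A₀[t]`, and the homomorphism `A₀[t] → k'(u)` (reduction modulo `p` on `A₀`, `t_i ↦` the coordinates of
the generic element of the torus) extends to them. Their images are the eigenvalues of the
generic element of the torus, among which there are `r` with no relation modulo `p`; dividing relations by
`p` one finds `r` eigenvalues of `Y` linearly independent over `ℚ` (`exists_generic`). (3) Some multiple
`p ^ N Y` is the logarithm of an element of the image: successive approximation and compactness,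
the error is again a tangent vector (`exists_exact`). So there is a Galois element with `r`
multiplicatively independent eigenvalues (`ExpOf.indep`). (4) By Chebotarev and the theory of
Frobenius tori this holds for Frobenius elements, and the theorem on ranks and endomorphisms applies
(`Pool.Agent.R931.IR`, `Pool.Agent.N203.RE`, helper203).

Proof for (B). The element modulo `p` is the reduction of a Frobenius element of good reduction. The
eigenvalues lift, without relations with exponents at most `B` (`lift_free`). If there was a relation
between the roots of the Frobenius polynomials, there would be one with exponents in a finite set which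
depends only on `n`, `w`, `c`, `r` (`relation_complex`), and `B` is a bound for these exponents.

Proof of 1 → 3. Let `z_k` be independent eigenvalues at `v`. If `|e_k| ≤ B` and `e` is not zero, then
`∏ z_k ^ e_k - 1` is not zero, and divides an integer `m_e`, up to algebraic integers
and powers of the `z_k`; the eigenvalues modulo `p` of the Frobenius element at `v` are free if `p`
does not divide any of these `m_e`, and is not the residue characteristic of `v` (`free_at`).
For 3 → 2 one needs only a stable lattice (`exists_lattice`).
-/

set_option autoImplicit false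

namespace Pool.Agent.Results.MP_33b3f9_ag.ResidualRank

open NumberField IsDedekindDomain Module Matrix Polynomial Pool.Agent.Y114.RM
  Pool.Agent.Y114.TF Pool.Agent.R931.IR Pool.Agent.N203.RE

/-- The absolute Galois group of `ℚ`. -/
abbrev GalQ : Type := Gal(AlgebraicClosure ℚ/ℚ)

section residual

variable {p N : ℕ} [Fact p.Prime] {G : Type} [Group G]

/-- The logarithm of a unipotent matrix modulo `p`: the sum of `(-1) ^ (j + 1) (u - 1) ^ j / j` for
`1 ≤ j < p`. -/
def unipotentLog (u : Matrix (Fin N) (Fin N) (ZMod p)) : Matrix (Fin N) (Fin N) (ZMod p) :=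
  ∑ j ∈ Finset.Ico 1 p, ((-1) ^ (j + 1) * ((j : ℕ) : ZMod p)⁻¹) • (u - 1) ^ j

/-- The generators of the residual Lie algebra: the logarithms of the elements `u` of the image
modulo `p` with `(u - 1) ^ ((p - 1) / 2) = 0`, and the reductions of the integral matrices
`(R g - 1) / p ^ (k + 1)`. -/
def generators (R : G →* Matrix (Fin N) (Fin N) ℤ_[p]) : Set (Matrix (Fin N) (Fin N) (ZMod p)) :=
  {X | (∃ g, ((R g).map PadicInt.toZMod - 1) ^ ((p - 1) / 2) = 0 ∧
      X = unipotentLog ((R g).map PadicInt.toZMod)) ∨
    ∃ g k Y, R g = 1 + (p : ℤ_[p]) ^ (k + 1) • Y ∧ X = Y.map PadicInt.toZMod}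

/-- The residual Lie algebra: the smallest space of matrices modulo `p` which contains the
generators and is closed under commutators. -/
def residualLieAlgebra (R : G →* Matrix (Fin N) (Fin N) ℤ_[p]) :
    Submodule (ZMod p) (Matrix (Fin N) (Fin N) (ZMod p)) :=
  sInf {L | generators R ⊆ (L : Set (Matrix (Fin N) (Fin N) (ZMod p))) ∧
    ∀ X ∈ L, ∀ Y ∈ L, X * Y - Y * X ∈ L}

/-- The toral rank of `L` is at least `r`: over some extension field `k` of `ℤ / p`, the space
generated by `L` contains `r` linearly independent matrices which can be diagonalized
simultaneously. -/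
def HasTorus (L : Submodule (ZMod p) (Matrix (Fin N) (Fin N) (ZMod p))) (r : ℕ) : Prop :=
  ∃ (k : Type) (_ : Field k) (_ : Algebra (ZMod p) k) (T T' : Matrix (Fin N) (Fin N) k)
    (d : Fin r → Fin N → k), T * T' = 1 ∧ LinearIndependent k d ∧
    ∀ j, T * diagonal (d j) * T' ∈ Submodule.span k
      ((fun X : Matrix (Fin N) (Fin N) (ZMod p) => X.map (algebraMap (ZMod p) k)) '' L)

/-- `A` has `r` eigenvalues `x j` in some extension field of `ℤ / p` with no relation
`∏ x j ^ e j = 1`, `|e j| ≤ B`, except for `e = 0`. -/
def HasFreeEigenvalues (A : Matrix (Fin N) (Fin N) (ZMod p)) (r B : ℕ) : Prop :=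
  ∃ (k : Type) (_ : Field k) (_ : Algebra (ZMod p) k) (x : Fin r → k),
    (∀ j, aeval (x j) A.charpoly = 0) ∧
      ∀ e : Fin r → ℤ, (∀ j, |e j| ≤ B) → ∏ j, x j ^ e j = 1 → e = 0

/-- `R g` are the matrices of the operators `f (s g)` in a basis. -/
def HasMatrices {V Γ : Type} [AddCommGroup V] [Module ℚ_[p] V] [Group Γ]
    (f : Representation ℚ_[p] Γ V) (s : G →* Γ) (R : G →* Matrix (Fin N) (Fin N) ℤ_[p]) : Prop :=
  ∃ b : Basis (Fin N) ℚ_[p] V, ∀ g,
    LinearMap.toMatrix b b (f (s g)) = (R g).map (algebraMap ℤ_[p] ℚ_[p])

end residual

variable {Γ : Type} [Group Γ] [TopologicalSpace Γ] {ι : Type} [Fintype ι] [DecidableEq ι]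
  {n : ι → ℕ}

/-- `R g` are the matrices of the elements `g` of the Galois group of `ℚ`, acting at the point `s`, in
a basis of a stable lattice of the `p`-adic realization. -/
def IsLatticeAction {p N : ℕ} [Fact p.Prime] (s : GalQ →* Γ) (ρ : Reps Γ n p)
    (R : GalQ →* Matrix (Fin N) (Fin N) ℤ_[p]) : Prop :=
  HasMatrices (sumRep ρ) s R

/-- The criterion at `p`: for some stable lattice, the residual Lie algebra contains a torus of
dimension `r` over an extension (and `p` is odd), or an element of the image modulo `p` has `r`
eigenvalues without relations with exponents at most `B`. -/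
def Criterion {p : ℕ} [Fact p.Prime] (s : GalQ →* Γ) (ρ : Reps Γ n p) (r B : ℕ) : Prop :=
  ∃ (N : ℕ) (R : GalQ →* Matrix (Fin N) (Fin N) ℤ_[p]), IsLatticeAction s ρ R ∧
    ((3 ≤ p ∧ HasTorus (residualLieAlgebra R) r) ∨
      ∃ σ, HasFreeEigenvalues ((R σ).map PadicInt.toZMod) r B)

/-- For every stable lattice, an element of the image modulo `p` has `r` eigenvalues without
relations with exponents at most `B`. -/
def FreeElement {p : ℕ} [Fact p.Prime] (s : GalQ →* Γ) (ρ : Reps Γ n p) (r B : ℕ) : Prop :=
  ∀ (N : ℕ) (R : GalQ →* Matrix (Fin N) (Fin N) ℤ_[p]), IsLatticeAction s ρ R →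
    ∃ σ, HasFreeEigenvalues ((R σ).map PadicInt.toZMod) r B

/-- The Mumford-Tate conjecture at `ℓ`: the Tate tensors are the tensors killed by `𝔤 ⊗ ℚ_ℓ`, and
`𝔤 ⊗ ℚ_ℓ` consists of all endomorphisms which kill all Tate tensors. -/
def MumfordTate {ℓ : ℕ} [Fact ℓ.Prime] (ρ : Reps Γ n ℓ) (𝔤 : Submodule ℚ (End ℚ (Betti n))) :
    Prop :=
  TateMotivated ρ 𝔤 ∧ KillsTateTensors ρ (scalars ℓ 𝔤)

/-- **The Mumford-Tate conjecture at every prime number from the image modulo one prime number.** -/
theorem result (n : ι → ℕ) (w : ι → ℤ) (c r : ℕ) : ∃ B : ℕ,
    ∀ (Γ : Type) [Group Γ] [TopologicalSpace Γ] [IsTopologicalGroup Γ] [CompactSpace Γ]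
    -- the realizations, and the Lie algebra `𝔤` of the Mumford-Tate group
    (s : GalQ →* Γ) (S : Set (HeightOneSpectrum (𝓞 ℚ)))
    (P : HeightOneSpectrum (𝓞 ℚ) → ι → ℚ[X]) (ρ : ∀ (ℓ : ℕ) [Fact ℓ.Prime], Reps Γ n ℓ)
    (𝔤 : Submodule ℚ (End ℚ (Betti n))), Realizations s w S P ρ 𝔤 → IntegralOutside S P c →
    -- one Frobenius torus of dimension `r`, the criterion at one `p`, the criterion at almost all `p`
    [∃ v, v ∉ S ∧ IndepRoots r (Set.range (P v)),
      ∃ (p : ℕ) (_ : Fact p.Prime), Criterion s (ρ p) r B,
      ∃ T : Set ℕ, T.Finite ∧ ∀ (p : ℕ) [Fact p.Prime], p ∉ T →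
        FreeElement s (ρ p) r B].TFAE ∧
    -- if `𝔤` has rank at most `r`, they imply the Mumford-Tate conjecture for all `ℓ`, up to
    -- Tate endomorphisms
    (RatRankLE 𝔤 r → (∃ (p : ℕ) (_ : Fact p.Prime), Criterion s (ρ p) r B) →
      ∀ (ℓ : ℕ) [Fact ℓ.Prime],
        Semisimple (ρ ℓ) ∧ (MumfordTate (ρ ℓ) 𝔤 ↔ TateEndomorphisms (ρ ℓ) 𝔤)) := by
  obtain ⟨B, hB⟩ := Pool.Agent.U175.LP.exists_exp_bound n w c r
  refine ⟨B, fun Γ _ _ _ _ s S P ρ 𝔤 h hc => ⟨?_, ?_⟩⟩
  · tfae_have 2 → 1 := by
      rintro ⟨p, _, N, R, ⟨b, hb⟩, ⟨hp, htorus⟩ | hσ⟩
      · exact Pool.Agent.U175.LP.place_of_independent h hc p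
          (Pool.Agent.U175.LP.independent_of_torus h.continuous_point (h.continuous p) b hb hp
            (S := generators R) (fun X hX => hX) htorus)
      · exact Pool.Agent.U175.LP.place_of_mod h hc b hb hB hσ
    tfae_have 1 → 3 := by
      intro hv
      obtain ⟨T, hT, h1⟩ := Pool.Agent.U175.LP.free_of_place h hv B
      exact ⟨T, hT, fun p _ hp N R ⟨b, hb⟩ => h1 p hp N b R hb⟩
    tfae_have 3 → 2 := by
      rintro ⟨T, hT, h1⟩
      obtain ⟨p, hp, hpT⟩ := Pool.Agent.U175.LP.exists_prime_notMem hT
      have hF : Fact p.Prime := ⟨hp⟩
      have hG := Pool.Agent.U175.LP.compact_gal ℚ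
      obtain ⟨N, b, R, hR⟩ :=
        Pool.Agent.U175.LP.exists_lattice_rep h.continuous_point (h.continuous p)
      exact ⟨p, hF, N, R, ⟨b, hR⟩, Or.inr (h1 p hpT N R ⟨b, hR⟩)⟩
    tfae_finish
  · rintro hr ⟨p, _, N, R, ⟨b, hb⟩, hmod⟩ ℓ _
    have hmain : RankTheorem (ρ ℓ) 𝔤 r := by
      rcases hmod with ⟨hp, htorus⟩ | hσ
      · exact main_element h c hc r hr p
          (Pool.Agent.U175.LP.independent_of_torus h.continuous_point (h.continuous p) b hb hp
            (S := generators R) (fun X hX => hX) htorus) ℓ
      · exact Pool.Agent.U175.LP.rank_of_mod h hc hr b hb hB hσ ℓ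
    refine ⟨hmain.semisimple, fun hM => hmain.tate.1 hM.1, fun hE => ?_⟩
    have hT := hmain.tate.2 hE
    refine ⟨hT, fun X => ⟨fun hX m φ hφ => (hT m φ).1 hφ X hX, fun hX => ?_⟩⟩
    exact (h.motivic ℓ).algebraic X fun m φ hφ => hX m φ ((hT m φ).2 hφ)

end Pool.Agent.Results.MP_33b3f9_ag.ResidualRank
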